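import Mathlib
import Pool.Agent.helper39.MT.Defs

/-!
# Maynard-Tao, module TR1: expansion of the square of the sieve weight
-/

namespace Pool.Agent.helper39.MT

open Finset Real

namespace TR1

/-- The local indicator. -/
noncomputable def loc {k : ℕ} (t e : Option (Fin k)) : ℝ :=
  if t = none then (1 : ℝ) else if e = t then 1 else 0

/-- The local coefficients. -/
noncomputable def co {k : ℕ} (p : ℝ) (s s' t : Option (Fin k)) : ℝ :=
  match t with
  | none => Phi p s none * Phi p s' none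
  | some i => Phi p s (some i) * Phi p s' (some i) - Phi p s none * Phi p s' none

lemma local_expand {k : ℕ} (p : ℝ) (s s' e : Option (Fin k)) :
    Phi p s e * Phi p s' e = ∑ t, co p s s' t * loc t e := by
  rw [Fintype.sum_option]
  cases e with
  | none =>
    have : ∀ i : Fin k, co p s s' (some i) * loc (some i) none = 0 := by
      intro i
      simp [loc]
    rw [sum_congr rfl fun i _ => this i]
    simp [loc, co]
  | some j =>
    have : ∀ i : Fin k, co p s s' (some i) * loc (some i) (some j) =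
        if i = j then co p s s' (some j) else 0 := by
      intro i
      by_cases h : i = j
      · subst h
        simp [loc]
      · have h' : ¬ j = i := fun h' => h h'.symm
        simp [loc, h, h']
    rw [sum_congr rfl fun i _ => this i, Finset.sum_ite_eq' univ j]
    simp [loc, co]

lemma sum_pi {ι κ : Type*} [Fintype ι] [DecidableEq ι] [Fintype κ] (f : ι → κ → ℝ) :
    ∑ τ : ι → κ, ∏ p, f p (τ p) = ∏ p, ∑ t, f p t := by
  rw [Finset.prod_univ_sum, Fintype.piFinset_univ]

lemma sum_pi2 {ι κ : Type*} [Fintype ι] [DecidableEq ι] [Fintype κ] (f : ι → κ → κ → ℝ) :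
    ∑ σ : ι → κ, ∑ σ' : ι → κ, ∏ p, f p (σ p) (σ' p) = ∏ p, ∑ s, ∑ s', f p s s' := by
  rw [← sum_pi]
  exact sum_congr rfl fun σ _ => sum_pi fun p s' => f p (σ p) s'

lemma Phi_none_abs {k : ℕ} {p : ℝ} (hp : 1 < p) :
    ∑ s : Option (Fin k), |Phi p s none| = 1 + k / (p - 1) := by
  rw [Fintype.sum_option]
  have h : ∀ i : Fin k, |Phi p (some i) (none : Option (Fin k))| = 1 / (p - 1) := by
    intro i
    have : (0 : ℝ) < p - 1 := by linarith
    simp only [Phi]
    rw [if_neg (by simp), sub_zero, abs_of_pos (by positivity)]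
  rw [sum_congr rfl fun i _ => h i]
  simp [Phi]
  ring

lemma Phi_some_abs {k : ℕ} {p : ℝ} (hp : 1 < p) (i : Fin k) :
    ∑ s : Option (Fin k), |Phi p s (some i)| ≤ 2 + k / (p - 1) := by
  rw [Fintype.sum_option]
  have hp' : (0 : ℝ) < p - 1 := by linarith
  have h : ∀ j : Fin k, |Phi p (some j) (some i)| ≤ (if j = i then 1 else 0) + 1 / (p - 1) := by
    intro j
    simp only [Phi]
    by_cases hj : j = i
    · subst hj
      rw [if_pos rfl, if_pos rfl]
      have : (1 - p) / (p - 1) = -1 := by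
        rw [div_eq_iff hp'.ne']; ring
      rw [this]
      have : (0 : ℝ) ≤ 1 / (p - 1) := by positivity
      simp only [abs_neg, abs_one]
      linarith
    · have hj' : ¬ (some i = some j) := fun h => hj (Option.some.inj h).symm
      rw [if_neg hj', if_neg hj, sub_zero, zero_add, abs_of_pos (by positivity)]
  calc |Phi p none (some i)| + ∑ j : Fin k, |Phi p (some j) (some i)|
      ≤ 1 + ∑ j : Fin k, ((if j = i then 1 else 0) + 1 / (p - 1)) := by
        gcongr with j _
        · simp [Phi]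
        · exact h j
    _ = 2 + k / (p - 1) := by
        rw [sum_add_distrib, Finset.sum_ite_eq' univ i]
        simp
        ring

lemma Phi_diff_abs {k : ℕ} {p : ℝ} (hp : 1 < p) (i : Fin k) :
    ∑ s : Option (Fin k), |Phi p s (some i) - Phi p s none| = p / (p - 1) := by
  rw [Fintype.sum_option]
  have hp' : (0 : ℝ) < p - 1 := by linarith
  have h : ∀ j : Fin k, |Phi p (some j) (some i) - Phi p (some j) none| =
      if j = i then p / (p - 1) else 0 := by
    intro j
    simp only [Phi]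
    by_cases hj : j = i
    · subst hj
      rw [if_pos rfl, if_pos rfl, if_neg (by simp), sub_zero, ← sub_div]
      rw [show (1 : ℝ) - p - 1 = -p by ring, neg_div, abs_neg, abs_of_pos (by positivity)]
    · have hj' : ¬ (some i = some j) := fun h => hj (Option.some.inj h).symm
      rw [if_neg hj', if_neg (by simp), if_neg hj, sub_zero, sub_self, abs_zero]
  rw [sum_congr rfl fun j _ => h j, Finset.sum_ite_eq' univ i]
  simp [Phi]

lemma co_none_sum {k : ℕ} {p : ℝ} (hp : 1 < p) :
    ∑ s : Option (Fin k), ∑ s' : Option (Fin k), |co p s s' none| = (1 + k / (p - 1)) ^ 2 := by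
  simp only [co, abs_mul]
  rw [← Finset.sum_mul_sum, Phi_none_abs hp]
  ring

lemma co_some_sum {k : ℕ} {p : ℝ} (hp : 4 * (k : ℝ) + 4 ≤ p) (i : Fin k) :
    ∑ s : Option (Fin k), ∑ s' : Option (Fin k), |co p s s' (some i)| ≤ 6 := by
  have hk : (0 : ℝ) ≤ k := by positivity
  have hp1 : 1 < p := by linarith
  have hp' : (0 : ℝ) < p - 1 := by linarith
  have h1 : ∀ s s' : Option (Fin k), |co p s s' (some i)| ≤
      |Phi p s (some i) - Phi p s none| * |Phi p s' (some i)| +
      |Phi p s none| * |Phi p s' (some i) - Phi p s' none| := by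
    intro s s'
    simp only [co]
    rw [← abs_mul, ← abs_mul]
    refine le_trans (le_of_eq ?_) (abs_add_le _ _)
    congr 1
    ring
  have h2 : (k : ℝ) / (p - 1) ≤ 1 / 4 := by
    rw [div_le_iff₀ hp']
    linarith
  have h3 : p / (p - 1) ≤ 4 / 3 := by
    rw [div_le_iff₀ hp']
    linarith
  calc ∑ s : Option (Fin k), ∑ s' : Option (Fin k), |co p s s' (some i)|
      ≤ ∑ s : Option (Fin k), ∑ s' : Option (Fin k),
        (|Phi p s (some i) - Phi p s none| * |Phi p s' (some i)| +
          |Phi p s none| * |Phi p s' (some i) - Phi p s' none|) :=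
        sum_le_sum fun s _ => sum_le_sum fun s' _ => h1 s s'
    _ = (∑ s : Option (Fin k), |Phi p s (some i) - Phi p s none|) *
          (∑ s' : Option (Fin k), |Phi p s' (some i)|) +
        (∑ s : Option (Fin k), |Phi p s none|) *
          (∑ s' : Option (Fin k), |Phi p s' (some i) - Phi p s' none|) := by
        simp only [sum_add_distrib]
        rw [Finset.sum_mul_sum, Finset.sum_mul_sum]
    _ ≤ (4 / 3) * (2 + 1 / 4) + (1 + 1 / 4) * (4 / 3) := by
        rw [Phi_diff_abs hp1 i, Phi_none_abs hp1]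
        have h4 := Phi_some_abs hp1 i
        have h5 : ∑ s' : Option (Fin k), |Phi p s' (some i)| ≤ 2 + 1 / 4 := by linarith
        gcongr
    _ ≤ 6 := by norm_num

lemma co_none_none {k : ℕ} (p : ℝ) (t : Option (Fin k)) (ht : t ≠ none) :
    co p none none t = 0 := by
  cases t with
  | none => exact absurd rfl ht
  | some i => simp [co, Phi]

end TR1

open TR1 in
/-- TR1: expansion of `FF²` in indicators, with bounds for the coefficients. -/
theorem FF_expand {ι : Type*} [Fintype ι] [DecidableEq ι] {k : ℕ} (pr : ι → ℕ)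
    (hpr : ∀ p, 4 * k + 4 ≤ pr p) (y : (ι → Option (Fin k)) → ℝ) (hy : ∀ σ, |y σ| ≤ 1) :
    ∃ c : (ι → Option (Fin k)) → ℝ,
      (∀ e, FF pr y e ^ 2 = ∑ τ, c τ * ind τ e) ∧
      (∀ τ, |c τ| ≤ (∏ p, (1 + (k : ℝ) / ((pr p : ℝ) - 1)) ^ 2) * 6 ^ (#{p | τ p ≠ none})) ∧
      (∀ τ, c τ ≠ 0 → ∃ σ σ', y σ ≠ 0 ∧ y σ' ≠ 0 ∧ ∀ p, τ p ≠ none → σ p ≠ none ∨ σ' p ≠ none) := by
  classical
  refine ⟨fun τ => ∑ σ : ι → Option (Fin k), ∑ σ' : ι → Option (Fin k),
    y σ * y σ' * ∏ p, co (pr p : ℝ) (σ p) (σ' p) (τ p), ?_, ?_, ?_⟩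
  · intro e
    have h1 : ∀ σ σ' : ι → Option (Fin k),
        (y σ * ∏ p, Phi (pr p : ℝ) (σ p) (e p)) * (y σ' * ∏ p, Phi (pr p : ℝ) (σ' p) (e p)) =
        ∑ τ, (y σ * y σ' * ∏ p, co (pr p : ℝ) (σ p) (σ' p) (τ p)) * ind τ e := by
      intro σ σ'
      rw [show (y σ * ∏ p, Phi (pr p : ℝ) (σ p) (e p)) * (y σ' * ∏ p, Phi (pr p : ℝ) (σ' p) (e p)) =
        y σ * y σ' * ∏ p, (Phi (pr p : ℝ) (σ p) (e p) * Phi (pr p : ℝ) (σ' p) (e p)) by
        rw [prod_mul_distrib]; ring]
      rw [prod_congr rfl fun p _ => local_expand (pr p : ℝ) (σ p) (σ' p) (e p), ← sum_pi, mul_sum]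
      refine sum_congr rfl fun τ _ => ?_
      rw [prod_mul_distrib]
      simp only [ind, loc]
      ring
    rw [sq, FF, Finset.sum_mul_sum]
    rw [sum_congr rfl fun σ _ => sum_congr rfl fun σ' _ => h1 σ σ']
    simp only [sum_mul]
    rw [sum_congr rfl fun σ _ => sum_comm, sum_comm]
  · intro τ
    have h1 : |∑ σ : ι → Option (Fin k), ∑ σ' : ι → Option (Fin k),
        y σ * y σ' * ∏ p, co (pr p : ℝ) (σ p) (σ' p) (τ p)| ≤
        ∑ σ : ι → Option (Fin k), ∑ σ' : ι → Option (Fin k),
          ∏ p, |co (pr p : ℝ) (σ p) (σ' p) (τ p)| := by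
      refine (abs_sum_le_sum_abs _ _).trans (sum_le_sum fun σ _ => ?_)
      refine (abs_sum_le_sum_abs _ _).trans (sum_le_sum fun σ' _ => ?_)
      rw [abs_mul, abs_mul, Finset.abs_prod]
      have h2 : |y σ| * |y σ'| ≤ 1 := mul_le_one₀ (hy σ) (abs_nonneg _) (hy σ')
      have h3 : (0 : ℝ) ≤ ∏ p, |co (pr p : ℝ) (σ p) (σ' p) (τ p)| :=
        prod_nonneg fun p _ => abs_nonneg _
      nlinarith
    refine h1.trans ?_
    rw [sum_pi2 fun p s s' => |co (pr p : ℝ) s s' (τ p)|]
    rw [← prod_const, Finset.prod_filter, ← prod_mul_distrib]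
    refine prod_le_prod (fun p _ => sum_nonneg fun s _ => sum_nonneg fun s' _ => abs_nonneg _)
      fun p _ => ?_
    have hp : 4 * (k : ℝ) + 4 ≤ (pr p : ℝ) := by exact_mod_cast hpr p
    have hk : (0 : ℝ) ≤ k := by positivity
    have hp1 : (1 : ℝ) < (pr p : ℝ) := by linarith
    have hp' : (0 : ℝ) < (pr p : ℝ) - 1 := by linarith
    cases hτ : τ p with
    | none =>
      rw [co_none_sum hp1]
      simp
    | some i =>
      refine (co_some_sum hp i).trans ?_
      rw [if_pos (by simp)]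
      have : (1 : ℝ) ≤ (1 + (k : ℝ) / ((pr p : ℝ) - 1)) ^ 2 := by
        apply one_le_pow₀
        have : (0 : ℝ) ≤ (k : ℝ) / ((pr p : ℝ) - 1) := by positivity
        linarith
      linarith
  · intro τ hτ
    dsimp only at hτ
    obtain ⟨σ, -, hσ⟩ := exists_ne_zero_of_sum_ne_zero hτ
    obtain ⟨σ', -, hσ'⟩ := exists_ne_zero_of_sum_ne_zero hσ
    refine ⟨σ, σ', fun h => hσ' (by rw [h]; ring), fun h => hσ' (by rw [h]; ring), ?_⟩
    intro p hp
    by_contra hcon
    push Not at hcon
    apply hσ'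
    rw [Finset.prod_eq_zero (mem_univ p), mul_zero]
    rw [hcon.1, hcon.2]
    exact co_none_none _ _ hp

end Pool.Agent.helper39.MT
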