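import Mathlib
import Pool.Agent.helper39.MT.Defs

/-!
# Maynard-Tao, module TR3: model expectations of the indicators
-/

namespace Pool.Agent.helper39.MT

open Finset Real

namespace TR3

lemma sum_pi {ι κ : Type*} [Fintype ι] [DecidableEq ι] [Fintype κ] (f : ι → κ → ℝ) :
    ∑ τ : ι → κ, ∏ p, f p (τ p) = ∏ p, ∑ t, f p t := by
  rw [Finset.prod_univ_sum, Fintype.piFinset_univ]

lemma Ex_ind {ι : Type*} [Fintype ι] [DecidableEq ι] {k : ℕ} (μ : ι → Option (Fin k) → ℝ)
    (hμ : ∀ p, ∑ e, μ p e = 1) (τ : ι → Option (Fin k)) :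
    Ex μ (ind τ) = ∏ p, (if τ p = none then 1 else μ p (τ p)) := by
  have h1 : Ex μ (ind τ) = ∑ e : ι → Option (Fin k),
      ∏ p, (μ p (e p) * (if τ p = none then (1 : ℝ) else if e p = τ p then 1 else 0)) := by
    rw [Ex]
    refine sum_congr rfl fun e _ => ?_
    rw [prod_mul_distrib]
    rfl
  rw [h1, sum_pi fun p e => μ p e * (if τ p = none then (1 : ℝ) else if e = τ p then 1 else 0)]
  refine prod_congr rfl fun p _ => ?_
  by_cases h : τ p = none
  · simp only [h, if_true, mul_one]
    exact hμ p
  · simp only [h, if_false, mul_ite, mul_one, mul_zero]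
    rw [Finset.sum_ite_eq' univ (τ p)]
    simp

end TR3

open TR3 in
/-- TR3: the model expectations of indicators. -/
theorem Ex_mu0_ind {ι : Type*} [Fintype ι] [DecidableEq ι] {k : ℕ} (pr : ι → ℕ)
    (τ : ι → Option (Fin k)) :
    Ex (fun p => mu0 (k := k) (pr p : ℝ)) (ind τ) = 1 / (dd pr τ : ℝ) := by
  rw [Ex_ind]
  · rw [dd, Nat.cast_prod, one_div, ← prod_inv_distrib]
    refine prod_congr rfl fun p _ => ?_
    cases h : τ p with
    | none => simp
    | some i => simp [mu0]
  · intro p
    rw [Fintype.sum_option]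
    simp only [mu0, sum_const, card_univ, Fintype.card_fin, nsmul_eq_mul]
    ring

open TR3 in
theorem Ex_mu1_ind {ι : Type*} [Fintype ι] [DecidableEq ι] {k : ℕ} (m : Fin k) (pr : ι → ℕ)
    (hpr : ∀ p, (pr p).Prime) (hinj : Function.Injective pr) (h3 : ∀ p, 3 ≤ pr p)
    (τ : ι → Option (Fin k)) :
    Ex (fun p => mu1 m (pr p : ℝ)) (ind τ) =
      if ∃ p, τ p = some m then 0 else 1 / (Nat.totient (dd pr τ) : ℝ) := by
  classical
  rw [Ex_ind]
  · split_ifs with h
    · obtain ⟨p, hp⟩ := h
      refine prod_eq_zero (mem_univ p) ?_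
      rw [hp, if_neg (by simp)]
      simp [mu1]
    · push Not at h
      have htot : ∀ S : Finset ι, Nat.totient (∏ p ∈ S, (if τ p = none then 1 else pr p)) =
          ∏ p ∈ S, (if τ p = none then 1 else pr p - 1) := by
        intro S
        induction S using Finset.induction_on with
        | empty => simp
        | insert a S ha ih =>
          rw [prod_insert ha, prod_insert ha, Nat.totient_mul, ih]
          · congr 1
            split_ifs
            · simp
            · exact Nat.totient_prime (hpr a)
          · refine Nat.Coprime.prod_right fun b hb => ?_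
            split_ifs
            · simp
            · simp
            · simp
            · refine (Nat.coprime_primes (hpr a) (hpr b)).2 fun h' => ?_
              rw [hinj h'] at ha
              exact ha hb
      rw [dd, htot, Nat.cast_prod, one_div, ← prod_inv_distrib]
      refine prod_congr rfl fun p _ => ?_
      cases hτ : τ p with
      | none => simp
      | some i =>
        have him : i ≠ m := fun h' => h p (by rw [hτ, h'])
        have : ((pr p - 1 : ℕ) : ℝ) = (pr p : ℝ) - 1 := by
          rw [Nat.cast_sub (hpr p).one_lt.le, Nat.cast_one]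
        simp [mu1, him, this]
  · intro p
    have hp : (3 : ℝ) ≤ (pr p : ℝ) := by exact_mod_cast h3 p
    have hp' : (0 : ℝ) < (pr p : ℝ) - 1 := by linarith
    rw [Fintype.sum_option]
    have h1 : ∑ i : Fin k, mu1 m (pr p : ℝ) (some i) = ((k : ℝ) - 1) / ((pr p : ℝ) - 1) := by
      have h2 : ∀ i : Fin k, mu1 m (pr p : ℝ) (some i) =
          1 / ((pr p : ℝ) - 1) - if i = m then 1 / ((pr p : ℝ) - 1) else 0 := by
        intro i
        by_cases hi : i = m <;> simp [mu1, hi]
      rw [sum_congr rfl fun i _ => h2 i, sum_sub_distrib, Finset.sum_ite_eq' univ m]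
      simp only [sum_const, card_univ, Fintype.card_fin, nsmul_eq_mul, mem_univ, if_true]
      ring
    rw [h1]
    simp only [mu1]
    ring

end Pool.Agent.helper39.MT
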