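import Mathlib
import Pool.Agent.helper39.MT.Defs

/-!
# Maynard-Tao, module TR10b: sums over labels
-/

namespace Pool.Agent.helper39.MT

open Finset Real

namespace TR10b

/-- The primes which carry a label, as a set of natural numbers. -/
def supp {k W R : ℕ} (τ : PS W R → Option (Fin k)) : Finset ℕ :=
  (univ.filter fun p : PS W R => τ p ≠ none).map (Function.Embedding.subtype _)

lemma mem_supp {k W R : ℕ} {τ : PS W R → Option (Fin k)} {q : ℕ} :
    q ∈ supp τ ↔ ∃ h : q ∈ PS W R, τ ⟨q, h⟩ ≠ none := by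
  simp [supp]

lemma dd_eq {k W R : ℕ} (τ : PS W R → Option (Fin k)) :
    dd (fun p : PS W R => (p : ℕ)) τ = ∏ p ∈ supp τ, p := by
  rw [dd, supp, prod_map, prod_filter]
  refine prod_congr rfl fun p _ => ?_
  by_cases h : τ p = none <;> simp [h]

lemma supp_prime {k W R : ℕ} {τ : PS W R → Option (Fin k)} : ∀ q ∈ supp τ, q.Prime := by
  intro q hq
  obtain ⟨h, -⟩ := mem_supp.1 hq
  exact (mem_PS.1 h).2.1

lemma primeFactors_dd {k W R : ℕ} (τ : PS W R → Option (Fin k)) :
    (dd (fun p : PS W R => (p : ℕ)) τ).primeFactors = supp τ := by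
  rw [dd_eq, Nat.primeFactors_prod supp_prime]

lemma dd_pos {k W R : ℕ} (τ : PS W R → Option (Fin k)) :
    0 < dd (fun p : PS W R => (p : ℕ)) τ := by
  rw [dd_eq]
  exact prod_pos fun q hq => (supp_prime q hq).pos

lemma dd_squarefree {k W R : ℕ} (τ : PS W R → Option (Fin k)) :
    Squarefree (dd (fun p : PS W R => (p : ℕ)) τ) := by
  rw [dd_eq]
  refine Finset.squarefree_prod_of_pairwise_isCoprime ?_ fun q hq => (supp_prime q hq).squarefree
  intro p hp q hq hpq
  exact Nat.coprime_iff_isRelPrime.1 ((Nat.coprime_primes (supp_prime p hp) (supp_prime q hq)).2 hpq)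

lemma dd_coprime {k W R : ℕ} (τ : PS W R → Option (Fin k)) :
    Nat.Coprime (dd (fun p : PS W R => (p : ℕ)) τ) W := by
  rw [dd_eq]
  refine Nat.Coprime.prod_left fun q hq => ?_
  obtain ⟨h, -⟩ := mem_supp.1 hq
  exact ((mem_PS.1 h).2.1.coprime_iff_not_dvd).2 (mem_PS.1 h).2.2

lemma card_supp {k W R : ℕ} (τ : PS W R → Option (Fin k)) :
    #{p | τ p ≠ none} = (dd (fun p : PS W R => (p : ℕ)) τ).primeFactors.card := by
  rw [primeFactors_dd, supp, card_map]

lemma none_iff {k W R : ℕ} (τ : PS W R → Option (Fin k)) (p : PS W R) :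
    τ p ≠ none ↔ (p : ℕ) ∣ dd (fun p : PS W R => (p : ℕ)) τ := by
  have h1 : (p : ℕ) ∈ (dd (fun p : PS W R => (p : ℕ)) τ).primeFactors ↔
      (p : ℕ) ∣ dd (fun p : PS W R => (p : ℕ)) τ := by
    rw [Nat.mem_primeFactors]
    exact ⟨fun h => h.2.1, fun h => ⟨(mem_PS.1 p.2).2.1, h, (dd_pos τ).ne'⟩⟩
  rw [← h1, primeFactors_dd, mem_supp]
  constructor
  · intro h
    exact ⟨p.2, h⟩
  · rintro ⟨_, h⟩
    exact h

lemma fiber_card {k W R : ℕ} (D : ℕ) :
    #{τ : PS W R → Option (Fin k) | dd (fun p : PS W R => (p : ℕ)) τ = D} ≤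
      k ^ D.primeFactors.card := by
  classical
  rcases Finset.eq_empty_or_nonempty
    ({τ : PS W R → Option (Fin k) | dd (fun p : PS W R => (p : ℕ)) τ = D} : Finset _) with h | h
  · rw [h]; simp
  · obtain ⟨τ₀, hτ₀⟩ := h
    rw [mem_filter] at hτ₀
    have hsub : ({τ : PS W R → Option (Fin k) | dd (fun p : PS W R => (p : ℕ)) τ = D} : Finset _) ⊆
        Fintype.piFinset fun p : PS W R =>
          if τ₀ p = none then ({none} : Finset (Option (Fin k))) else univ.erase none := by
      intro τ hτ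
      rw [mem_filter] at hτ
      rw [Fintype.mem_piFinset]
      intro p
      have h1 := none_iff τ p
      have h2 := none_iff τ₀ p
      rw [hτ.2] at h1
      rw [hτ₀.2, ← h1] at h2
      by_cases hp : τ₀ p = none
      · rw [if_pos hp, mem_singleton]
        by_contra h3
        exact (h2.2 h3) hp
      · rw [if_neg hp, mem_erase]
        exact ⟨h2.1 hp, mem_univ _⟩
    refine (card_le_card hsub).trans (le_of_eq ?_)
    rw [Fintype.card_piFinset]
    have h3 : ∀ p : PS W R, (if τ₀ p = none then ({none} : Finset (Option (Fin k)))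
        else univ.erase none).card = if τ₀ p ≠ none then k else 1 := by
      intro p
      by_cases hp : τ₀ p = none
      · simp [hp]
      · simp [hp]
    rw [prod_congr rfl fun p _ => h3 p, ← prod_filter, prod_const, card_supp, hτ₀.2]

end TR10b

open TR10b in
theorem sum_labels (k W R : ℕ) (X : ℕ → ℝ) (hX : ∀ D, 0 ≤ X D) (t : ℕ) :
    ∑ τ : PS W R → Option (Fin k) with dd (fun p : PS W R => (p : ℕ)) τ ≤ R ^ 2,
        (t : ℝ) ^ (#{p | τ p ≠ none}) * X (dd (fun p : PS W R => (p : ℕ)) τ)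
      ≤ ∑ D ∈ Icc 1 (R ^ 2) with Squarefree D ∧ Nat.Coprime D W,
        ((t * k : ℕ) : ℝ) ^ D.primeFactors.card * X D := by
  classical
  have hmaps : ∀ τ ∈ ({τ : PS W R → Option (Fin k) |
      dd (fun p : PS W R => (p : ℕ)) τ ≤ R ^ 2} : Finset _),
      dd (fun p : PS W R => (p : ℕ)) τ ∈
        (Icc 1 (R ^ 2)).filter (fun D => Squarefree D ∧ Nat.Coprime D W) := by
    intro τ hτ
    rw [mem_filter] at hτ
    rw [mem_filter, mem_Icc]
    exact ⟨⟨dd_pos τ, hτ.2⟩, dd_squarefree τ, dd_coprime τ⟩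
  rw [← sum_fiberwise_of_maps_to hmaps]
  refine sum_le_sum fun D _ => ?_
  calc ∑ τ ∈ ({τ : PS W R → Option (Fin k) |
        dd (fun p : PS W R => (p : ℕ)) τ ≤ R ^ 2} : Finset _).filter
          (fun τ => dd (fun p : PS W R => (p : ℕ)) τ = D),
        (t : ℝ) ^ (#{p | τ p ≠ none}) * X (dd (fun p : PS W R => (p : ℕ)) τ)
      = ∑ τ ∈ ({τ : PS W R → Option (Fin k) |
        dd (fun p : PS W R => (p : ℕ)) τ ≤ R ^ 2} : Finset _).filter
          (fun τ => dd (fun p : PS W R => (p : ℕ)) τ = D),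
        (t : ℝ) ^ D.primeFactors.card * X D := by
        refine sum_congr rfl fun τ hτ => ?_
        rw [mem_filter] at hτ
        rw [card_supp, hτ.2]
    _ = (#(({τ : PS W R → Option (Fin k) |
        dd (fun p : PS W R => (p : ℕ)) τ ≤ R ^ 2} : Finset _).filter
          (fun τ => dd (fun p : PS W R => (p : ℕ)) τ = D)) : ℝ) *
        ((t : ℝ) ^ D.primeFactors.card * X D) := by
        rw [sum_const, nsmul_eq_mul]
    _ ≤ ((k ^ D.primeFactors.card : ℕ) : ℝ) * ((t : ℝ) ^ D.primeFactors.card * X D) := by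
        refine mul_le_mul_of_nonneg_right ?_ (mul_nonneg (by positivity) (hX D))
        have : #(({τ : PS W R → Option (Fin k) |
          dd (fun p : PS W R => (p : ℕ)) τ ≤ R ^ 2} : Finset _).filter
          (fun τ => dd (fun p : PS W R => (p : ℕ)) τ = D)) ≤ k ^ D.primeFactors.card := by
          refine (card_le_card ?_).trans (fiber_card (k := k) (W := W) (R := R) D)
          intro τ hτ
          rw [mem_filter] at hτ ⊢
          exact ⟨mem_univ _, hτ.2⟩
        exact_mod_cast this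
    _ = ((t * k : ℕ) : ℝ) ^ D.primeFactors.card * X D := by
        push_cast
        rw [mul_pow]
        ring

end Pool.Agent.helper39.MT
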